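import Mathlib.Order.Extension.Linear
import Mathlib.Logic.Relation
import Mathlib.Data.Prod.Lex
import Mathlib.Order.WellFounded
import Mathlib.Data.Finset.Card
import Mathlib.Tactic

/-!
# Orderings without ABA patterns

Let `M` be a relation between `ℕ` (the vertices) and a type (the hyperedges).  Two vertices `a, b`
and two hyperedges `x, y` with `a ∈ x \ y` and `b ∈ y \ x` force the order of the two vertices and
the order of the two hyperedges to agree.  So the ordered pairs of vertices split into classes.  If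
no class contains a pair and its reverse, then the lexicographic orientation of the classes is
transitive.
-/

set_option autoImplicit false

namespace Pool.Agent.R537.ABA

variable {V : Type*} (M : ℕ → V → Prop)

/-- `a ∈ x \ y` and `b ∈ y \ x`. -/
def R (a b : ℕ) (x y : V) : Prop := M a x ∧ ¬ M b x ∧ M b y ∧ ¬ M a y

/-- One step between pairs of vertices. -/
def T (s t : ℕ × ℕ) : Prop := ∃ x y, R M s.1 s.2 x y ∧ R M t.1 t.2 x y

/-- Two pairs of vertices in the same class. -/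
def Cl (s t : ℕ × ℕ) : Prop := Relation.ReflTransGen (T M) s t

variable {M}

theorem T.symm {s t : ℕ × ℕ} (h : T M s t) : T M t s := by
  obtain ⟨x, y, h1, h2⟩ := h
  exact ⟨x, y, h2, h1⟩

theorem Cl.symm {s t : ℕ × ℕ} (h : Cl M s t) : Cl M t s := by
  induction h with
  | refl => exact Relation.ReflTransGen.refl
  | tail _ h2 ih => exact Relation.ReflTransGen.head h2.symm ih

theorem Cl.trans {s t u : ℕ × ℕ} (h : Cl M s t) (h' : Cl M t u) : Cl M s u :=
  Relation.ReflTransGen.trans h h'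

theorem R.swap {a b : ℕ} {x y : V} (h : R M a b x y) : R M b a y x :=
  ⟨h.2.2.1, h.2.2.2, h.1, h.2.1⟩

theorem T.swap {s t : ℕ × ℕ} (h : T M s t) : T M s.swap t.swap := by
  obtain ⟨x, y, h1, h2⟩ := h
  exact ⟨y, x, h1.swap, h2.swap⟩

theorem Cl.swap {s t : ℕ × ℕ} (h : Cl M s t) : Cl M s.swap t.swap := by
  induction h with
  | refl => exact Relation.ReflTransGen.refl
  | tail _ h2 ih => exact Relation.ReflTransGen.tail ih h2.swap

theorem R.cl {a b a' b' : ℕ} {x y : V} (h : R M a b x y) (h' : R M a' b' x y) :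
    T M (a, b) (a', b') := ⟨x, y, h, h'⟩

variable (M) in
/-- An incomparable pair. -/
def Arc (a b : ℕ) : Prop := ∃ x y, R M a b x y

theorem Arc.symm {a b : ℕ} (h : Arc M a b) : Arc M b a := by
  obtain ⟨x, y, h⟩ := h
  exact ⟨y, x, h.swap⟩

theorem Arc.ne {a b : ℕ} (h : Arc M a b) : a ≠ b := by
  rintro rfl
  obtain ⟨x, y, h⟩ := h
  exact h.2.1 h.1

theorem Arc.cl {a b : ℕ} {t : ℕ × ℕ} (h : Arc M a b) (h' : Cl M (a, b) t) :
    Arc M t.1 t.2 := by
  induction h' with
  | refl => exact h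
  | tail _ h2 _ =>
    obtain ⟨x, y, -, h3⟩ := h2
    exact ⟨x, y, h3⟩

variable (M) in
/-- The increasing pairs in the class of `(a, b)` or of `(b, a)`. -/
def LL (a b : ℕ) : Set (ℕ ×ₗ ℕ) :=
  {m | (ofLex m).1 < (ofLex m).2 ∧ (Cl M (a, b) (ofLex m) ∨ Cl M (b, a) (ofLex m))}

theorem LL_nonempty {a b : ℕ} (h : Arc M a b) : (LL M a b).Nonempty := by
  rcases lt_or_gt_of_ne h.ne with h1 | h1
  · exact ⟨toLex (a, b), h1, Or.inl Relation.ReflTransGen.refl⟩
  · exact ⟨toLex (b, a), h1, Or.inr Relation.ReflTransGen.refl⟩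

theorem LL_comm (a b : ℕ) : LL M a b = LL M b a := by
  ext m
  simp only [LL, Set.mem_ofPred_eq]
  rw [or_comm]

theorem LL_cl {a b a' b' : ℕ} (h : Cl M (a, b) (a', b')) : LL M a b = LL M a' b' := by
  ext m
  simp only [LL, Set.mem_ofPred_eq]
  have h' : Cl M (b, a) (b', a') := h.swap
  constructor
  · rintro ⟨h1, h2 | h2⟩
    · exact ⟨h1, Or.inl (h.symm.trans h2)⟩
    · exact ⟨h1, Or.inr (h'.symm.trans h2)⟩
  · rintro ⟨h1, h2 | h2⟩
    · exact ⟨h1, Or.inl (h.trans h2)⟩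
    · exact ⟨h1, Or.inr (h'.trans h2)⟩

variable (M) in
open Classical in
/-- The leader: the least increasing pair. -/
noncomputable def ld (a b : ℕ) : ℕ ×ₗ ℕ :=
  if h : (LL M a b).Nonempty then WellFounded.min (wellFounded_lt) (LL M a b) h else toLex (0, 0)

theorem ld_mem {a b : ℕ} (h : Arc M a b) : ld M a b ∈ LL M a b := by
  unfold ld
  rw [dif_pos (LL_nonempty h)]
  exact WellFounded.min_mem _ _ _

theorem ld_le {a b : ℕ} {m : ℕ ×ₗ ℕ} (hm : m ∈ LL M a b) : ld M a b ≤ m := by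
  unfold ld
  rw [dif_pos ⟨m, hm⟩]
  exact not_lt.1 (WellFounded.not_lt_min _ _ hm)

theorem ld_comm (a b : ℕ) : ld M a b = ld M b a := by
  unfold ld
  rw [LL_comm]

theorem ld_cl {a b a' b' : ℕ} (h : Cl M (a, b) (a', b')) : ld M a b = ld M a' b' := by
  unfold ld
  rw [LL_cl h]

variable (M) in
/-- The lexicographic orientation. -/
def O (a b : ℕ) : Prop := Arc M a b ∧ Cl M (a, b) (ofLex (ld M a b))

theorem O.cl {a b a' b' : ℕ} (h : O M a b) (h' : Cl M (a, b) (a', b')) : O M a' b' := by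
  refine ⟨h.1.cl h', ?_⟩
  rw [← ld_cl h']
  exact h'.symm.trans h.2

theorem O.tt {a b a' b' : ℕ} (h : O M a b) (h' : T M (a, b) (a', b')) : O M a' b' :=
  h.cl (Relation.ReflTransGen.single h')

theorem O_total {a b : ℕ} (h : Arc M a b) : O M a b ∨ O M b a := by
  have h1 := ld_mem h
  rcases h1.2 with h2 | h2
  · exact Or.inl ⟨h, h2⟩
  · right
    refine ⟨h.symm, ?_⟩
    rw [← ld_comm]
    exact h2

section

variable (hC : ∀ a b, a ≠ b → ¬ Cl M (a, b) (b, a))

include hC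

theorem O_asymm {a b : ℕ} (h : O M a b) (h' : O M b a) : False := by
  refine hC a b h.1.ne ?_
  have h1 := h'.2
  rw [← ld_comm] at h1
  exact h.2.trans h1.symm

/-- The ends of a path are incomparable. -/
theorem arc_of {a b c : ℕ} (h1 : O M a b) (h2 : O M b c) : Arc M a c := by
  obtain ⟨x, y, hx, hx', hy, hy'⟩ := h1.1
  obtain ⟨z, w, hz, hz', hw, hw'⟩ := h2.1
  have e1 : ∃ x, M a x ∧ ¬ M c x := by
    by_contra hcon
    push Not at hcon
    have hz3 : ¬ M a z := fun h => hz' (hcon z h)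
    have r1 : R M a b x z := ⟨hx, hx', hz, hz3⟩
    have r2 : R M c b x z := ⟨hcon x hx, hx', hz, hz'⟩
    exact O_asymm hC h2 (h1.tt (r1.cl r2))
  have e2 : ∃ x, M c x ∧ ¬ M a x := by
    by_contra hcon
    push Not at hcon
    have hy3 : ¬ M c y := fun h => hy' (hcon y h)
    have r1 : R M a b w y := ⟨hcon w hw, hw', hy, hy'⟩
    have r2 : R M c b w y := ⟨hw, hw', hy, hy3⟩
    exact O_asymm hC h2 (h1.tt (r1.cl r2))
  obtain ⟨u, hu, hu'⟩ := e1
  obtain ⟨v, hv, hv'⟩ := e2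
  exact ⟨u, v, hu, hu', hv, hv'⟩

/-- The triangle lemma, one step. -/
theorem step {a b c a' b' : ℕ} (h1 : O M a b) (h2 : O M b c) (h3 : O M c a)
    (h : T M (a, b) (a', b')) : T M (b, c) (b', c) ∧ T M (c, a) (c, a') := by
  have k1 : ∀ x y, M a x → M c x → ¬ M b x → M b y → ¬ M a y → ¬ M c y → False := by
    intro x y g1 g2 g3 g4 g5 g6
    have r1 : R M a b x y := ⟨g1, g3, g4, g5⟩
    have r2 : R M c b x y := ⟨g2, g3, g4, g6⟩
    exact O_asymm hC h2 (h1.tt (r1.cl r2))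
  have k2 : ∀ x y, M a x → M b x → ¬ M c x → M c y → ¬ M a y → ¬ M b y → False := by
    intro x y g1 g2 g3 g4 g5 g6
    have r1 : R M b c x y := ⟨g2, g3, g4, g6⟩
    have r2 : R M a c x y := ⟨g1, g3, g4, g5⟩
    exact O_asymm hC h3 (h2.tt (r1.cl r2))
  have k3 : ∀ x y, M b x → M c x → ¬ M a x → M a y → ¬ M b y → ¬ M c y → False := by
    intro x y g1 g2 g3 g4 g5 g6
    have r1 : R M c a x y := ⟨g2, g3, g4, g6⟩
    have r2 : R M b a x y := ⟨g1, g3, g4, g5⟩
    exact O_asymm hC h1 (h3.tt (r1.cl r2))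
  obtain ⟨x, y, ⟨ax, bx, by', ay⟩, ⟨a'x, b'x, b'y, a'y⟩⟩ := h
  obtain ⟨x2, y2, -, -, bx2, ax2⟩ := h1.1
  obtain ⟨x4, y4, bx4, cx4, cy4, by4⟩ := h2.1
  obtain ⟨x3, y3, cx3, ax3, ay3, cy3⟩ := h3.1
  simp only at ax bx by' ay a'x b'x b'y a'y
  by_cases hcx : M c x
  · -- the second case
    have hcy : M c y := by
      by_contra hcy
      exact k1 x y ax hcx bx by' ay hcy
    -- a hyperedge that contains `a`, `b` and not `c`
    obtain ⟨z, az, bz, cz⟩ : ∃ z, M a z ∧ M b z ∧ ¬ M c z := by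
      refine ⟨y3, ay3, ?_, cy3⟩
      by_contra hb
      exact k3 y y3 by' hcy ay ay3 hb cy3
    have qbc : R M b c z x := ⟨bz, cz, hcx, bx⟩
    have qca : R M c a y z := ⟨hcy, ay, az, cz⟩
    have qab : R M a b x y := ⟨ax, bx, by', ay⟩
    have ha'z : M a' z := by
      by_contra hn
      have r1 : R M a' b x y := ⟨a'x, bx, by', a'y⟩
      have r2 : R M b a' z x := ⟨bz, hn, a'x, bx⟩
      exact O_asymm hC (h1.tt (qab.cl r1)) (h2.tt (qbc.cl r2))
    have hb'z : M b' z := by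
      by_contra hn
      have r1 : R M a b' x y := ⟨ax, b'x, b'y, ay⟩
      have r2 : R M b' a y z := ⟨b'y, ay, az, hn⟩
      exact O_asymm hC (h1.tt (qab.cl r1)) (h3.tt (qca.cl r2))
    exact ⟨qbc.cl ⟨hb'z, cz, hcx, b'x⟩, qca.cl ⟨hcy, a'y, ha'z, cz⟩⟩
  · -- the first case
    have hcy : ¬ M c y := by
      intro hcy
      exact k3 y x by' hcy ay ax bx hcx
    -- a hyperedge that contains only `c`
    obtain ⟨z, cz, az, bz⟩ : ∃ z, M c z ∧ ¬ M a z ∧ ¬ M b z := by
      refine ⟨x3, cx3, ax3, ?_⟩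
      intro hb
      exact k3 x3 x hb cx3 ax3 ax bx hcx
    have qab : R M a b x y := ⟨ax, bx, by', ay⟩
    have qbc : R M b c y z := ⟨by', hcy, cz, bz⟩
    have qca : R M c a z x := ⟨cz, az, ax, hcx⟩
    have ha'z : ¬ M a' z := by
      intro hn
      have r1 : R M a' b x y := ⟨a'x, bx, by', a'y⟩
      have r2 : R M b a' y z := ⟨by', a'y, hn, bz⟩
      exact O_asymm hC (h1.tt (qab.cl r1)) (h2.tt (qbc.cl r2))
    have hb'z : ¬ M b' z := by
      intro hn
      have r1 : R M a b' x y := ⟨ax, b'x, b'y, ay⟩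
      have r2 : R M b' a z x := ⟨hn, az, ax, b'x⟩
      exact O_asymm hC (h1.tt (qab.cl r1)) (h3.tt (qca.cl r2))
    exact ⟨qbc.cl ⟨b'y, hcy, cz, hb'z⟩, qca.cl ⟨cz, ha'z, a'x, hcx⟩⟩

/-- The triangle lemma. -/
theorem tri {a b c : ℕ} {t : ℕ × ℕ} (h1 : O M a b) (h2 : O M b c) (h3 : O M c a)
    (h : Cl M (a, b) t) : Cl M (b, c) (t.2, c) ∧ Cl M (c, a) (c, t.1) := by
  induction h with
  | refl => exact ⟨Relation.ReflTransGen.refl, Relation.ReflTransGen.refl⟩
  | @tail s t h4 h5 ih =>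
    obtain ⟨i1, i2⟩ := ih
    have o1 : O M s.1 s.2 := h1.cl h4
    have o2 : O M s.2 c := h2.cl i1
    have o3 : O M c s.1 := h3.cl i2
    obtain ⟨j1, j2⟩ := step hC o1 o2 o3 (a' := t.1) (b' := t.2) h5
    exact ⟨i1.tail j1, i2.tail j2⟩

/-- A cyclic triple whose first leader has the least first component is impossible. -/
theorem no_cycle_aux {a b c : ℕ} (h1 : O M a b) (h2 : O M b c) (h3 : O M c a)
    (hp : (ofLex (ld M a b)).1 ≤ (ofLex (ld M c a)).1) : False := by
  obtain ⟨p, hpdef⟩ : ∃ p, p = (ofLex (ld M a b)).1 := ⟨_, rfl⟩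
  obtain ⟨q, hqdef⟩ : ∃ q, q = (ofLex (ld M a b)).2 := ⟨_, rfl⟩
  have hA : Cl M (a, b) (p, q) := by rw [hpdef, hqdef]; exact h1.2
  obtain ⟨t1, t2⟩ := tri hC h1 h2 h3 hA
  have o1 : O M p q := h1.cl hA
  have o2 : O M q c := h2.cl t1
  have o3 : O M c p := h3.cl t2
  obtain ⟨m, hm⟩ : ∃ m, m = ofLex (ld M c a) := ⟨_, rfl⟩
  have hmem : m.1 < m.2 := by rw [hm]; exact (ld_mem h3.1).1
  have hC' : Cl M (c, a) m := by rw [hm]; exact h3.2
  rw [← hpdef, ← hm] at hp
  -- the first component of the leader of `(c, a)` is `p`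
  have hmp : m.1 = p := by
    rcases lt_or_gt_of_ne o3.1.ne with hlt | hlt
    · have h4 : toLex (c, p) ∈ LL M c a := ⟨hlt, Or.inl t2⟩
      have h5 := ld_le h4
      have h6 : m.1 ≤ c := by
        rw [hm]
        rcases (Prod.Lex.le_iff).1 h5 with h7 | h7
        · exact h7.le
        · exact h7.1.le
      omega
    · have h4 : toLex (p, c) ∈ LL M c a := ⟨hlt, Or.inr t2.swap⟩
      have h5 := ld_le h4
      have h6 : m.1 ≤ p := by
        rw [hm]
        rcases (Prod.Lex.le_iff).1 h5 with h7 | h7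
        · exact h7.le
        · exact h7.1.le
      omega
  have h8 : Cl M (c, p) m := t2.symm.trans hC'
  obtain ⟨u1, u2⟩ := tri hC o3 o1 o2 h8
  rw [hmp] at u2
  exact O_asymm hC o1 (o2.cl u2)

/-- There are no cyclic triples. -/
theorem no_cycle {a b c : ℕ} (h1 : O M a b) (h2 : O M b c) (h3 : O M c a) : False := by
  by_cases e1 : (ofLex (ld M a b)).1 ≤ (ofLex (ld M c a)).1
  · exact no_cycle_aux hC h1 h2 h3 e1
  · by_cases e2 : (ofLex (ld M c a)).1 ≤ (ofLex (ld M b c)).1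
    · exact no_cycle_aux hC h3 h1 h2 e2
    · exact no_cycle_aux hC h2 h3 h1 (by omega)

theorem O_trans {a b c : ℕ} (h1 : O M a b) (h2 : O M b c) : O M a c := by
  rcases O_total (arc_of hC h1 h2) with h3 | h3
  · exact h3
  · exact absurd h3 fun h3 => no_cycle hC h1 h2 h3

/-- **The existence of an ordering.** -/
theorem exists_order (W : Finset ℕ) : ∃ π : ℕ → ℕ, Set.InjOn π W ∧
    ∀ a ∈ W, ∀ b ∈ W, O M a b → π a < π b := by
  classical
  obtain ⟨r, hr⟩ : ∃ r : ℕ → ℕ → Prop, ∀ a b, r a b ↔ a = b ∨ O M a b :=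
    ⟨fun a b => a = b ∨ O M a b, fun _ _ => Iff.rfl⟩
  have hpo : IsPartialOrder ℕ r :=
    { refl := fun a => (hr a a).2 (Or.inl rfl)
      trans := fun a b c h1 h2 => by
        rw [hr] at h1 h2 ⊢
        rcases h1 with rfl | h1
        · exact h2
        · rcases h2 with rfl | h2
          · exact Or.inr h1
          · exact Or.inr (O_trans hC h1 h2)
      antisymm := fun a b h1 h2 => by
        rw [hr] at h1 h2
        rcases h1 with rfl | h1
        · rfl
        · rcases h2 with rfl | h2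
          · rfl
          · exact absurd h2 fun h2 => O_asymm hC h1 h2 }
  obtain ⟨s, hs, hrs⟩ := extend_partialOrder r
  have hmono : ∀ a ∈ W, ∀ b ∈ W, s a b → a ≠ b →
      (W.filter fun w => s w a ∧ w ≠ a).card < (W.filter fun w => s w b ∧ w ≠ b).card := by
    intro a ha b _ hab hne
    apply Finset.card_lt_card
    rw [Finset.ssubset_iff_of_subset]
    · refine ⟨a, ?_, ?_⟩
      · rw [Finset.mem_filter]
        exact ⟨ha, hab, hne⟩
      · rw [Finset.mem_filter]
        rintro ⟨-, -, h⟩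
        exact h rfl
    · intro w hw
      rw [Finset.mem_filter] at hw ⊢
      obtain ⟨h1, h2, -⟩ := hw
      refine ⟨h1, hs.toIsPartialOrder.toIsPreorder.toIsTrans.trans _ _ _ h2 hab, ?_⟩
      rintro rfl
      exact hne (hs.toIsPartialOrder.toAntisymm.antisymm _ _ hab h2)
  refine ⟨fun a => (W.filter fun w => s w a ∧ w ≠ a).card, ?_, ?_⟩
  · intro a ha b hb hab
    by_contra hne
    simp only at hab
    rcases hs.toTotal.total a b with h | h
    · exact absurd hab (hmono a ha b hb h hne).ne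
    · exact absurd hab (hmono b hb a ha h (Ne.symm hne)).ne'
  · intro a ha b hb hab
    exact hmono a ha b hb (hrs _ _ ((hr a b).2 (Or.inr hab))) hab.1.ne

end

end Pool.Agent.R537.ABA
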