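import Mathlib.Order.Basic
import Mathlib.Data.Set.Function
import Mathlib.Algebra.Group.Even
import Pool.Agent.NPC.Classes

/-!
# Hypergraphs without alternating patterns
-/

namespace Pool.Agent.NPC.R537ABA

/-- The input: the list of the vertices, and the list of the hyperedges (lists of vertices). -/
abbrev Hyp : Type := List ℕ × List (List ℕ)

/-- The input is a hypergraph: every hyperedge consists of vertices. -/
def IsHyp (H : Hyp) : Prop := ∀ e ∈ H.2, ∀ v ∈ e, v ∈ H.1

/-- With respect to the order of the vertices given by `π` (the vertex `u` precedes the vertex `v`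
if `π u < π v`), the hyperedges `e` and `f` form an alternating pattern of length `t`: there are
vertices `x₀ < x₁ < … < x_{t-1}`, those with even indices in `e \ f`, those with odd indices in
`f \ e`. -/
def Alt (t : ℕ) (π : ℕ → ℕ) (e f : List ℕ) : Prop :=
  ∃ x : Fin t → ℕ, (∀ i j, i < j → π (x i) < π (x j)) ∧
    ∀ i : Fin t, (Even (i : ℕ) → x i ∈ e ∧ x i ∉ f) ∧ (¬ Even (i : ℕ) → x i ∈ f ∧ x i ∉ e)

/-- The hypergraph is `(AB)^{t/2}`-free: for some linear order of its vertices no two hyperedges
form an alternating pattern of length `t`.  So `ABA`-free is the case `t = 3`. -/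
def AltFree (t : ℕ) (H : Hyp) : Prop :=
  IsHyp H ∧ ∃ π : ℕ → ℕ, Set.InjOn π {v | v ∈ H.1} ∧ ∀ e ∈ H.2, ∀ f ∈ H.2, ¬ Alt t π e f

end Pool.Agent.NPC.R537ABA
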