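import Pool.Agent.NPC.Dec

/-!
# Reachability in polynomial time
-/

set_option autoImplicit false

namespace Pool.Agent.NPC.R537ABA

open Pool.Agent.NPC

variable {β : Type} [DecidableEq β]

/-- One step of the closure. -/
def stp (U : List β) (E : β → β → Bool) (s : List β) : List β :=
  U.filter fun u => decide (u ∈ s) || s.any fun w => E w u

/-- The elements of `U` which can be reached from `s₀`. -/
def rch (U : List β) (E : β → β → Bool) (s₀ : β) : List β :=
  (stp U E)^[U.length] (U.filter fun u => decide (u = s₀))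

theorem mem_stp {U : List β} {E : β → β → Bool} {s : List β} {u : β} :
    u ∈ stp U E s ↔ u ∈ U ∧ (u ∈ s ∨ ∃ w ∈ s, E w u = true) := by
  simp [stp]

theorem iter_sub (U : List β) (E : β → β → Bool) (s₀ : β) (k : ℕ) :
    ∀ u ∈ (stp U E)^[k] (U.filter fun u => decide (u = s₀)), u ∈ U := by
  intro u hu
  cases k with
  | zero => exact (List.mem_filter.1 hu).1
  | succ k =>
    rw [Function.iterate_succ_apply'] at hu
    exact (mem_stp.1 hu).1

theorem iter_mono (U : List β) (E : β → β → Bool) (s₀ : β) (k : ℕ) :
    ∀ u ∈ (stp U E)^[k] (U.filter fun u => decide (u = s₀)),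
      u ∈ (stp U E)^[k + 1] (U.filter fun u => decide (u = s₀)) := by
  intro u hu
  rw [Function.iterate_succ_apply']
  exact mem_stp.2 ⟨iter_sub U E s₀ k u hu, Or.inl hu⟩

theorem iter_card (U : List β) (E : β → β → Bool) (s₀ : β) (h0 : s₀ ∈ U) (k : ℕ) :
    (∀ u ∈ (stp U E)^[k + 1] (U.filter fun u => decide (u = s₀)),
      u ∈ (stp U E)^[k] (U.filter fun u => decide (u = s₀))) ∨
    k + 1 ≤ ((stp U E)^[k] (U.filter fun u => decide (u = s₀))).toFinset.card := by
  induction k with
  | zero =>
    right
    have h1 : s₀ ∈ (U.filter fun u => decide (u = s₀)).toFinset := by simp [h0]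
    exact Finset.card_pos.2 ⟨s₀, h1⟩
  | succ k ih =>
    by_cases hcl : ∀ u ∈ (stp U E)^[k + 1] (U.filter fun u => decide (u = s₀)),
        u ∈ (stp U E)^[k] (U.filter fun u => decide (u = s₀))
    · left
      intro u hu
      rw [Function.iterate_succ_apply'] at hu ⊢
      obtain ⟨h1, h2⟩ := mem_stp.1 hu
      rcases h2 with h2 | ⟨w, hw, hE⟩
      · exact mem_stp.2 ⟨h1, Or.inl (hcl u h2)⟩
      · exact mem_stp.2 ⟨h1, Or.inr ⟨w, hcl w hw, hE⟩⟩
    · right
      have h1 := ih.resolve_left hcl
      push Not at hcl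
      obtain ⟨u, hu1, hu2⟩ := hcl
      have h2 : ((stp U E)^[k] (U.filter fun u => decide (u = s₀))).toFinset.card <
          ((stp U E)^[k + 1] (U.filter fun u => decide (u = s₀))).toFinset.card := by
        apply Finset.card_lt_card
        rw [Finset.ssubset_iff_of_subset]
        · exact ⟨u, List.mem_toFinset.2 hu1, fun h => hu2 (List.mem_toFinset.1 h)⟩
        · intro w hw
          exact List.mem_toFinset.2 (iter_mono U E s₀ k w (List.mem_toFinset.1 hw))
      omega

theorem rch_closed (U : List β) (E : β → β → Bool) (s₀ : β) (h0 : s₀ ∈ U) {w u : β}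
    (hw : w ∈ rch U E s₀) (hu : u ∈ U) (hE : E w u = true) : u ∈ rch U E s₀ := by
  rcases iter_card U E s₀ h0 U.length with h | h
  · apply h
    rw [Function.iterate_succ_apply']
    exact mem_stp.2 ⟨hu, Or.inr ⟨w, hw, hE⟩⟩
  · have h1 : ((stp U E)^[U.length] (U.filter fun u => decide (u = s₀))).toFinset.card ≤
        U.toFinset.card := by
      apply Finset.card_le_card
      intro w hw
      exact List.mem_toFinset.2 (iter_sub U E s₀ _ w (List.mem_toFinset.1 hw))
    have h2 := List.toFinset_card_le U
    omega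

theorem mem_rch {U : List β} {E : β → β → Bool} {s₀ : β} (h0 : s₀ ∈ U) {u : β} :
    u ∈ rch U E s₀ ↔ Relation.ReflTransGen (fun w u => u ∈ U ∧ E w u = true) s₀ u := by
  constructor
  · have key : ∀ k, ∀ u ∈ (stp U E)^[k] (U.filter fun u => decide (u = s₀)),
        Relation.ReflTransGen (fun w u => u ∈ U ∧ E w u = true) s₀ u := by
      intro k
      induction k with
      | zero =>
        intro u hu
        have h1 : u = s₀ := by simpa using (List.mem_filter.1 hu).2
        rw [h1]
      | succ k ih =>
        intro u hu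
        rw [Function.iterate_succ_apply'] at hu
        obtain ⟨h1, h2⟩ := mem_stp.1 hu
        rcases h2 with h2 | ⟨w, hw, hE⟩
        · exact ih u h2
        · exact (ih w hw).tail ⟨h1, hE⟩
    exact key _ u
  · intro h
    induction h with
    | refl =>
      have key : ∀ k, s₀ ∈ (stp U E)^[k] (U.filter fun u => decide (u = s₀)) := by
        intro k
        induction k with
        | zero => exact List.mem_filter.2 ⟨h0, by simp⟩
        | succ k ih => exact iter_mono U E s₀ k _ ih
      exact key _
    | tail _ h2 ih => exact rch_closed U E s₀ h0 ih h2.1 h2.2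

theorem sz_filter_le {γ : Type} [TEnc γ] (l : List γ) (f : γ → Bool) :
    sz (l.filter f) ≤ sz l := by
  induction l with
  | nil => simp
  | cons a l ih =>
    rw [List.filter_cons]
    split_ifs
    · rw [sz_list_cons, sz_list_cons]; omega
    · rw [sz_list_cons]; omega

variable {α : Type} [TEnc α] [TEnc β]

theorem poly_rch {U : α → List β} {E : α → β → β → Bool} {s₀ : α → β} (hU : Poly U)
    (hE : Poly (fun q : α × (β × β) => E q.1 q.2.1 q.2.2)) (hs : Poly s₀) :
    Poly (fun a => rch (U a) (E a) (s₀ a)) := by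
  obtain ⟨q, hq⟩ := Poly.sz_le hU
  have h0 : Poly (fun a => (U a).filter fun u => decide (u = s₀ a)) :=
    Poly.filter (p := fun a u => decide (u = s₀ a)) hU
      (Poly.decide_eq (Poly.snd Poly.id) (hs.comp (Poly.fst Poly.id)))
  refine Poly.iterLen (l := U) (s := fun a => (U a).filter fun u => decide (u = s₀ a))
    (F := fun a s => stp (U a) (E a) s) hU h0 ?_ q ?_
  · have h1 : Poly (fun r : (α × List β) × β => decide (r.2 ∈ r.1.2)) :=
      Poly.decide_mem (Poly.snd Poly.id) (Poly.snd (Poly.fst Poly.id))
    have h2 : Poly (fun r : ((α × List β) × β) × β => E r.1.1.1 r.2 r.1.2) :=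
      Poly.comp (g := fun q : α × (β × β) => E q.1 q.2.1 q.2.2) hE
        (Poly.pair (Poly.fst (Poly.fst (Poly.fst Poly.id)))
          (Poly.pair (Poly.snd Poly.id) (Poly.snd (Poly.fst Poly.id))))
    have h3 : Poly (fun r : (α × List β) × β => r.1.2.any fun w => E r.1.1 w r.2) :=
      Poly.any (l := fun r : (α × List β) × β => r.1.2) (p := fun r w => E r.1.1 w r.2)
        (Poly.snd (Poly.fst Poly.id)) h2
    exact Poly.filter (l := fun q : α × List β => U q.1)
      (p := fun q u => decide (u ∈ q.2) || q.2.any fun w => E q.1 w u)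
      (hU.comp (Poly.fst Poly.id)) (Poly.or h1 h3)
  · intro a k _
    refine le_trans ?_ (hq a)
    cases k with
    | zero => exact sz_filter_le _ _
    | succ k =>
      rw [Function.iterate_succ_apply']
      exact sz_filter_le _ _

end Pool.Agent.NPC.R537ABA
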