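import Pool.Agent.R537.ABA.Comb
import Pool.Agent.R537.ABA.Reach
import Pool.Agent.R537.ABA.Defs

/-!
# The recognition of ABA-free hypergraphs in polynomial time
-/

set_option autoImplicit false

namespace Pool.Agent.NPC.R537ABA

open Pool.Agent.NPC Pool.Agent.R537.ABA

/-- The incidence relation. -/
def Inc (H : Hyp) (v : ℕ) (e : List ℕ) : Prop := e ∈ H.2 ∧ v ∈ e

theorem alt_three {π : ℕ → ℕ} {e f : List ℕ} : Alt 3 π e f ↔ ∃ a b c, π a < π b ∧ π b < π c ∧
    (a ∈ e ∧ a ∉ f) ∧ (b ∈ f ∧ b ∉ e) ∧ (c ∈ e ∧ c ∉ f) := by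
  constructor
  · rintro ⟨x, h1, h2⟩
    refine ⟨x 0, x 1, x 2, h1 0 1 (by decide), h1 1 2 (by decide), (h2 0).1 (by decide),
      (h2 1).2 (by decide), (h2 2).1 (by decide)⟩
  · rintro ⟨a, b, c, h1, h2, ha, hb, hc⟩
    refine ⟨![a, b, c], ?_, ?_⟩
    · intro i j hij
      fin_cases i <;> fin_cases j <;> simp_all
      · exact h1.trans h2
    · intro i
      fin_cases i <;> simp_all

theorem R_iff (H : Hyp) {a b : ℕ} {x y : List ℕ} : R (Inc H) a b x y ↔
    x ∈ H.2 ∧ y ∈ H.2 ∧ a ∈ x ∧ b ∉ x ∧ b ∈ y ∧ a ∉ y := by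
  unfold R Inc
  constructor
  · rintro ⟨⟨h1, h2⟩, h3, ⟨h4, h5⟩, h6⟩
    exact ⟨h1, h4, h2, fun h => h3 ⟨h1, h⟩, h5, fun h => h6 ⟨h4, h⟩⟩
  · rintro ⟨h1, h4, h2, h3, h5, h6⟩
    exact ⟨⟨h1, h2⟩, fun h => h3 h.2, ⟨h4, h5⟩, fun h => h6 h.2⟩

/-- **The criterion**: a hypergraph is ABA-free if and only if no pair of distinct vertices is in
the class of its reverse. -/
theorem free_iff (H : Hyp) (hH : IsHyp H) :
    (∃ π : ℕ → ℕ, Set.InjOn π {v | v ∈ H.1} ∧ ∀ e ∈ H.2, ∀ f ∈ H.2, ¬ Alt 3 π e f) ↔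
      ∀ a b, a ≠ b → ¬ Cl (Inc H) (a, b) (b, a) := by
  constructor
  · rintro ⟨π, hπ, hfree⟩
    -- the order of the pairs is an invariant of the classes
    have hstep : ∀ s t : ℕ × ℕ, R537.ABA.T (Inc H) s t → π s.1 < π s.2 → π t.1 < π t.2 := by
      rintro ⟨a, b⟩ ⟨a', b'⟩ ⟨x, y, h1, h2⟩ hlt
      simp only at h1 h2 hlt ⊢
      rw [R_iff] at h1 h2
      obtain ⟨hx, hy, ax, bx, by', ay⟩ := h1
      obtain ⟨-, -, a'x, b'x, b'y, a'y⟩ := h2
      have hbV := hH y hy b by'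
      have ha'V := hH x hx a' a'x
      have hb'V := hH y hy b' b'y
      by_contra hcon
      have hne1 : π b' ≠ π a' := fun h => b'x (hπ hb'V ha'V h ▸ a'x)
      have hne2 : π b ≠ π a' := fun h => bx (hπ hbV ha'V h ▸ a'x)
      have h3 : π b' < π a' := by omega
      rcases lt_or_gt_of_ne hne2 with h4 | h4
      · exact hfree x hx y hy (alt_three.2 ⟨a, b, a', hlt, h4, ⟨ax, ay⟩, ⟨by', bx⟩, ⟨a'x, a'y⟩⟩)
      · exact hfree y hy x hx (alt_three.2 ⟨b', a', b, h3, h4, ⟨b'y, b'x⟩, ⟨a'x, a'y⟩, ⟨by', bx⟩⟩)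
    have hcl : ∀ s t : ℕ × ℕ, Cl (Inc H) s t → π s.1 < π s.2 → π t.1 < π t.2 := by
      intro s t h hlt
      induction h with
      | refl => exact hlt
      | tail _ h2 ih => exact hstep _ _ h2 ih
    intro a b hab h
    -- the pair is not trivial
    have harc : ∃ t, R537.ABA.T (Inc H) (a, b) t := by
      rcases Relation.ReflTransGen.cases_head h with h1 | ⟨t, h1, -⟩
      · exact absurd (congrArg Prod.fst h1) hab
      · exact ⟨t, h1⟩
    obtain ⟨t, x, y, h1, -⟩ := harc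
    rw [R_iff] at h1
    obtain ⟨hx, hy, ax, bx, by', ay⟩ := h1
    have hne : π a ≠ π b := fun h => hab (hπ (hH x hx a ax) (hH y hy b by') h)
    rcases lt_or_gt_of_ne hne with h2 | h2
    · have := hcl _ _ h h2
      simp only at this
      omega
    · have h3 : Cl (Inc H) (b, a) (a, b) := h.swap
      have := hcl _ _ h3 h2
      simp only at this
      omega
  · intro hC
    obtain ⟨π, hinj, hπ⟩ := exists_order (M := Inc H) hC H.1.toFinset
    refine ⟨π, fun a ha b hb h => hinj (by simpa using ha) (by simpa using hb) h, ?_⟩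
    intro e he f hf halt
    rw [alt_three] at halt
    obtain ⟨a, b, c, h1, h2, ⟨ha, ha'⟩, ⟨hb, hb'⟩, ⟨hc, hc'⟩⟩ := halt
    have r1 : R (Inc H) a b e f := (R_iff H).2 ⟨he, hf, ha, hb', hb, ha'⟩
    have r2 : R (Inc H) c b e f := (R_iff H).2 ⟨he, hf, hc, hb', hb, hc'⟩
    have haV : a ∈ H.1.toFinset := by simpa using hH e he a ha
    have hbV : b ∈ H.1.toFinset := by simpa using hH f hf b hb
    have hcV : c ∈ H.1.toFinset := by simpa using hH e he c hc
    have htt : R537.ABA.T (Inc H) (a, b) (c, b) := ⟨e, f, r1, r2⟩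
    rcases O_total (M := Inc H) ⟨e, f, r1⟩ with h | h
    · have := hπ c hcV b hbV (h.tt htt)
      omega
    · have := hπ b hbV a haV h
      omega

/-! ### The algorithm -/

/-- The pairs of vertices. -/
def prs (H : Hyp) : List (ℕ × ℕ) := H.1.flatMap fun a => H.1.map fun b => (a, b)

/-- `a ∈ x \ y` and `b ∈ y \ x`. -/
def rB (s : ℕ × ℕ) (x y : List ℕ) : Bool :=
  (decide (s.1 ∈ x) && !decide (s.2 ∈ x)) && (decide (s.2 ∈ y) && !decide (s.1 ∈ y))

/-- One step. -/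
def tB (H : Hyp) (s t : ℕ × ℕ) : Bool :=
  H.2.any fun x => H.2.any fun y => rB s x y && rB t x y

/-- The input is a hypergraph. -/
def hB (H : Hyp) : Bool := H.2.all fun e => e.all fun v => decide (v ∈ H.1)

/-- The decision procedure. -/
def decB (H : Hyp) : Bool :=
  hB H && (prs H).all fun s => decide (s.1 = s.2) || !decide (s.swap ∈ rch (prs H) (tB H) s)

theorem mem_prs {H : Hyp} {s : ℕ × ℕ} : s ∈ prs H ↔ s.1 ∈ H.1 ∧ s.2 ∈ H.1 := by
  obtain ⟨a, b⟩ := s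
  simp [prs]

theorem hB_iff (H : Hyp) : hB H = true ↔ IsHyp H := by
  simp [hB, IsHyp]

theorem tB_iff (H : Hyp) (s t : ℕ × ℕ) : tB H s t = true ↔ R537.ABA.T (Inc H) s t := by
  unfold tB R537.ABA.T
  simp only [List.any_eq_true, Bool.and_eq_true, rB, decide_eq_true_eq, Bool.not_eq_true',
    decide_eq_false_iff_not, R_iff]
  constructor
  · rintro ⟨x, hx, y, hy, ⟨⟨h1, h2⟩, h3, h4⟩, ⟨h5, h6⟩, h7, h8⟩
    exact ⟨x, y, ⟨hx, hy, h1, h2, h3, h4⟩, ⟨hx, hy, h5, h6, h7, h8⟩⟩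
  · rintro ⟨x, y, ⟨hx, hy, h1, h2, h3, h4⟩, ⟨-, -, h5, h6, h7, h8⟩⟩
    exact ⟨x, hx, y, hy, ⟨⟨h1, h2⟩, h3, h4⟩, ⟨h5, h6⟩, h7, h8⟩

theorem rch_iff (H : Hyp) (hH : IsHyp H) {s t : ℕ × ℕ} (hs : s ∈ prs H) :
    t ∈ rch (prs H) (tB H) s ↔ Cl (Inc H) s t := by
  rw [mem_rch hs]
  unfold Cl
  have e : (fun w u => u ∈ prs H ∧ tB H w u = true) = R537.ABA.T (Inc H) := by
    funext w u
    apply propext
    rw [tB_iff]
    constructor
    · exact fun h => h.2
    · intro h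
      refine ⟨?_, h⟩
      obtain ⟨x, y, -, h2⟩ := h
      rw [R_iff] at h2
      exact mem_prs.2 ⟨hH _ h2.1 _ h2.2.2.1, hH _ h2.2.1 _ h2.2.2.2.2.1⟩
  rw [e]

theorem decB_iff (H : Hyp) : AltFree 3 H ↔ decB H = true := by
  unfold AltFree decB
  rw [Bool.and_eq_true, hB_iff]
  refine and_congr_right fun hH => ?_
  rw [free_iff H hH]
  simp only [List.all_eq_true, Bool.or_eq_true, decide_eq_true_eq, Bool.not_eq_true',
    decide_eq_false_iff_not]
  constructor
  · intro h s hs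
    by_cases h1 : s.1 = s.2
    · exact Or.inl h1
    · right
      rw [rch_iff H hH hs]
      exact h s.1 s.2 h1
  · intro h a b hab hcl
    have harc : ∃ t, R537.ABA.T (Inc H) (a, b) t := by
      rcases Relation.ReflTransGen.cases_head hcl with h1 | ⟨t, h1, -⟩
      · exact absurd (congrArg Prod.fst h1) hab
      · exact ⟨t, h1⟩
    obtain ⟨t, x, y, h1, -⟩ := harc
    rw [R_iff] at h1
    have hs : (a, b) ∈ prs H := mem_prs.2 ⟨hH _ h1.1 _ h1.2.2.1, hH _ h1.2.1 _ h1.2.2.2.2.1⟩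
    rcases h (a, b) hs with h2 | h2
    · exact hab h2
    · exact h2 ((rch_iff H hH hs).2 hcl)

section

variable {α : Type} [TEnc α]

theorem poly_rB {s : α → ℕ × ℕ} {x y : α → List ℕ} (hs : Poly s) (hx : Poly x) (hy : Poly y) :
    Poly (fun a => rB (s a) (x a) (y a)) :=
  Poly.and (Poly.and (Poly.decide_mem (Poly.fst hs) hx) (Poly.not (Poly.decide_mem
    (Poly.snd hs) hx))) (Poly.and (Poly.decide_mem (Poly.snd hs) hy) (Poly.not
      (Poly.decide_mem (Poly.fst hs) hy)))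

theorem poly_tB {H : α → Hyp} {s t : α → ℕ × ℕ} (hH : Poly H) (hs : Poly s) (ht : Poly t) :
    Poly (fun a => tB (H a) (s a) (t a)) := by
  have f1 : Poly (fun q : α × List ℕ => q.1) := Poly.fst Poly.id
  have g1 : Poly (fun q : (α × List ℕ) × List ℕ => q.1.1) := Poly.fst (Poly.fst Poly.id)
  have g2 : Poly (fun q : (α × List ℕ) × List ℕ => q.1.2) := Poly.snd (Poly.fst Poly.id)
  have g3 : Poly (fun q : (α × List ℕ) × List ℕ => q.2) := Poly.snd Poly.id
  refine Poly.any (l := fun a => (H a).2) (p := fun a x => (H a).2.any fun y =>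
    rB (s a) x y && rB (t a) x y) (Poly.snd hH) ?_
  refine Poly.any (l := fun q : α × List ℕ => (H q.1).2) (p := fun q y =>
    rB (s q.1) q.2 y && rB (t q.1) q.2 y) ((Poly.snd hH).comp f1) ?_
  exact Poly.and (poly_rB (hs.comp g1) g2 g3) (poly_rB (ht.comp g1) g2 g3)

end

theorem poly_decB : Poly decB := by
  have hH : Poly (fun H : Hyp => H) := Poly.id
  have hV : Poly (fun H : Hyp => H.1) := Poly.fst hH
  have hE : Poly (fun H : Hyp => H.2) := Poly.snd hH
  have h1 : Poly (fun H : Hyp => hB H) := by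
    refine Poly.all (l := fun H : Hyp => H.2) (p := fun H e => e.all fun v => decide (v ∈ H.1))
      hE ?_
    refine Poly.all (l := fun q : Hyp × List ℕ => q.2) (p := fun q v => decide (v ∈ q.1.1))
      (Poly.snd Poly.id) ?_
    exact Poly.decide_mem (Poly.snd Poly.id) (Poly.fst (Poly.fst (Poly.fst Poly.id)))
  have h2 : Poly (fun H : Hyp => prs H) := by
    refine Poly.flatMap (F := fun H a => H.1.map fun b => (a, b)) hV ?_
    refine Poly.map (F := fun (q : Hyp × ℕ) b => (q.2, b)) (Poly.fst (Poly.fst Poly.id)) ?_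
    exact Poly.pair (Poly.snd (Poly.fst Poly.id)) (Poly.snd Poly.id)
  refine Poly.and h1 (Poly.all (l := prs) (p := fun H s => decide (s.1 = s.2) ||
    !decide (s.swap ∈ rch (prs H) (tB H) s)) h2 ?_)
  have hs : Poly (fun q : Hyp × (ℕ × ℕ) => q.2) := Poly.snd Poly.id
  have h3 : Poly (fun q : Hyp × (ℕ × ℕ) => rch (prs q.1) (tB q.1) q.2) := by
    refine poly_rch (E := fun q : Hyp × (ℕ × ℕ) => tB q.1) (h2.comp (Poly.fst Poly.id)) ?_ hs
    exact poly_tB (Poly.fst (Poly.fst Poly.id)) (Poly.fst (Poly.snd Poly.id))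
      (Poly.snd (Poly.snd Poly.id))
  have h4 : Poly (fun q : Hyp × (ℕ × ℕ) => q.2.swap) := Poly.pair (Poly.snd hs) (Poly.fst hs)
  exact Poly.or (Poly.decide_eq (Poly.fst hs) (Poly.snd hs)) (Poly.not
    ((Poly.decide_mem h4 h3).congr fun a => decide_eq_decide.2 Iff.rfl))

/-- **ABA-free hypergraphs can be recognised in polynomial time.** -/
theorem aba_inP : InPP (AltFree 3) := inPP_of poly_decB decB_iff

end Pool.Agent.NPC.R537ABA
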